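import Pool.Agent.H31.PT.H29.Sep.CircProb
import Pool.Agent.H31.PT.H29.Sep.NoArm
import Pool.Agent.H31.PT.M06

/-!
# Chains of circuits
-/

open MeasureTheory ProbabilityTheory unitInterval

namespace Pool.Agent.H57.EX

open Pool.Agent.H89.Perc Pool.Agent.H61.NC Pool.Agent.H29.Sep

theorem mem_eZone {γ : ℕ → Vert} {n s : ℕ} {e : Edge} (h : e ∈ eZone γ n s) :
    src e ∈ zone γ n s ∧ tgt e ∈ zone γ n s := by
  classical
  unfold eZone at h
  rw [Finset.mem_biUnion] at h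
  obtain ⟨i, hi, he⟩ := h
  rw [mem_eCirc] at he
  have hi' : i ≤ n := by
    have := Finset.mem_range.mp hi
    omega
  exact ⟨⟨i, hi', he.1.1⟩, ⟨i, hi', he.2.1⟩⟩

theorem localOn_allCirc (γ : ℕ → Vert) (n s : ℕ) : LocalOn (eZone γ n s) (AllCirc γ n s) := by
  classical
  intro ω ω' hω h i hi
  refine localOn_circ (γ i) s ω ω' (fun e he => hω e ?_) (h i hi)
  unfold eZone
  exact Finset.mem_biUnion.mpr ⟨i, Finset.mem_range.mpr (by omega), he⟩

theorem incr_allCirc (γ : ℕ → Vert) (n s : ℕ) : Incr (AllCirc γ n s) := by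
  intro ω ω' hω h i hi
  exact incr_circ (γ i) s ω ω' hω (h i hi)

/-- Probability of a chain of circuits (from `circ_lower` and `fkg_many`). -/
theorem allCirc_lower (c : ℝ) (hc : 0 < c) : ∃ c' : ℝ, 0 < c' ∧ c' ≤ 1 ∧ ∀ (m : ℕ) (q : I),
    1 ≤ m → RSWreg c m q → ∀ (γ : ℕ → Vert) (n s : ℕ), 1 ≤ s → s ≤ m →
      c' ^ (n + 1) ≤ Pr q (AllCirc γ n s) := by
  classical
  obtain ⟨c1, hc1, H⟩ := circ_lower c hc 1
  refine ⟨min c1 1, lt_min hc1 one_pos, min_le_right _ _, ?_⟩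
  intro m q hm hq γ n s hs hsm
  have h1 := fkg_many (p := q) (Finset.range (n + 1)) (fun i => Circ (γ i) s)
    (fun i => eCirc (γ i) s) (c := min c1 1) (le_min hc1.le zero_le_one)
    (fun i _ => localOn_circ _ _) (fun i _ => incr_circ _ _)
    (fun i _ => (min_le_left _ _).trans (H m q hm hq (γ i) s hs (by omega)))
  rw [Finset.card_range] at h1
  have h2 : (⋂ i ∈ Finset.range (n + 1), Circ (γ i) s) = AllCirc γ n s := by
    ext ω
    rw [Set.mem_iInter₂]
    constructor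
    · intro h i hi
      exact h i (Finset.mem_range.mpr (by omega))
    · intro h i hi
      exact h i (by have := Finset.mem_range.mp hi; omega)
  rwa [h2] at h1

/-- The rings of a chain are connected to each other inside the zone. -/
theorem rings_conn {ω : Config} {γ : ℕ → Vert} {n s : ℕ} {b b' : Vert} (hs : 1 ≤ s)
    (hc : Chain γ n s b b') (h : ω ∈ AllCirc γ n s) : ∀ j, j ≤ n →
    ∀ p ∈ ring ω (γ 0) s, ∀ r ∈ ring ω (γ j) s, Conn ω (zone γ n s) p r := by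
  have hz : ∀ i, i ≤ n → ann (γ i) s (3 * s) ⊆ zone γ n s := fun i hi w hw => ⟨i, hi, hw.1⟩
  have hr : ∀ i, i ≤ n → ∀ p ∈ ring ω (γ i) s, ∀ r ∈ ring ω (γ i) s,
      Conn ω (zone γ n s) p r := by
    intro i hi p hp r hr
    exact ((circ_ring hs (h i hi)).2.1 p hp r hr).mono_set (hz i hi)
  intro j
  induction j with
  | zero =>
    intro _ p hp r hr'
    exact hr 0 (Nat.zero_le _) p hp r hr'
  | succ j ih =>
    intro hj p hp r hr'
    have hst := hc.step j (by omega)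
    rw [mem_ball] at hst
    push_cast at hst
    obtain ⟨w, hw1, hw2⟩ := circ_meet hs (h j (by omega)) (h (j + 1) hj)
      (by rw [abs_le]; omega) (by rw [abs_le]; omega)
    exact (ih (by omega) p hp w hw1).trans (hr (j + 1) hj w hw2 r hr')

/-- The chain of circuits joins two paths which cross the first and the last annulus
(from `circ_ring` and `circ_meet`). -/
theorem chain_glue {ω : Config} {γ : ℕ → Vert} {n s : ℕ} {b b' : Vert} (hs : 1 ≤ s)
    (hc : Chain γ n s b b') (h : ω ∈ AllCirc γ n s) {S T : Set Vert} {u w u' w' : Vert}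
    (h1 : Conn ω S u w) (hu : u ∉ ball b (3 * s)) (hw : w ∈ ball b s)
    (h2 : Conn ω T u' w') (hu' : u' ∉ ball b' (3 * s)) (hw' : w' ∈ ball b' s) :
    Conn ω (S ∪ T ∪ zone γ n s) u u' := by
  have r0 := circ_ring hs (h 0 (Nat.zero_le _))
  have rn := circ_ring hs (h n le_rfl)
  rw [hc.h0] at r0
  rw [hc.hn] at rn
  obtain ⟨p, hp, hpc⟩ := r0.2.2 ω S w u h1.symm hw (Or.inr hu)
  obtain ⟨p', hp', hpc'⟩ := rn.2.2 ω T w' u' h2.symm hw' (Or.inr hu')
  have h3 : Conn ω (zone γ n s) p p' := by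
    refine rings_conn hs hc h n le_rfl p ?_ p' ?_
    · rw [hc.h0]; exact hp
    · rw [hc.hn]; exact hp'
  have a1 : Conn ω (S ∪ T ∪ zone γ n s) u p :=
    (h1.trans hpc).mono_set fun x hx => Or.inl (Or.inl hx)
  have a2 : Conn ω (S ∪ T ∪ zone γ n s) p p' := h3.mono_set fun x hx => Or.inr hx
  have a3 : Conn ω (S ∪ T ∪ zone γ n s) u' p' :=
    (h2.trans hpc').mono_set fun x hx => Or.inl (Or.inr hx)
  exact (a1.trans a2).trans a3.symm

/-- Probability of the sealing event (from `noarm_lower` and `fkg_decr_many`). -/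
theorem seal_lower (c : ℝ) (hc : 0 < c) : ∃ c' : ℝ, 0 < c' ∧ c' ≤ 1 ∧ ∀ (m : ℕ) (q : I),
    1 ≤ m → RSWreg c m q → ∀ (V : Finset Vert) (s : ℕ), 1 ≤ s → s ≤ m →
      c' ^ V.card ≤ Pr q {ω | ∀ v ∈ V, ω ∉ ArmBox v s (3 * s)} := by
  classical
  obtain ⟨c1, hc1, H⟩ := noarm_lower c hc 1
  refine ⟨min c1 1, lt_min hc1 one_pos, min_le_right _ _, ?_⟩
  intro m q hm hq V s hs hsm
  have hcompl : ∀ v : Vert, {ω | ¬ ∃ u ∈ ball v s, ∃ u' ∈ sphere v (3 * s),
      Conn ω (ball v (3 * s)) u u'} = (ArmBox v s (3 * s))ᶜ := fun v => rfl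
  have h1 := fkg_decr_many (p := q) V (fun v => (ArmBox v s (3 * s))ᶜ)
    (fun v => eRect (v.1 - ((3 * s : ℕ) : ℤ)) (v.1 + ((3 * s : ℕ) : ℤ))
      (v.2 - ((3 * s : ℕ) : ℤ)) (v.2 + ((3 * s : ℕ) : ℤ)))
    (c := min c1 1) (le_min hc1.le zero_le_one)
    (fun v _ => (localOn_armBox v s (3 * s)).compl)
    (fun v _ => by rw [compl_compl]; exact incr_armBox _ _ _)
    (fun v _ => by
      rw [← hcompl]
      exact (min_le_left _ _).trans (H m q hm hq v s hs (by omega)))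
  have h2 : (⋂ v ∈ V, (ArmBox v s (3 * s))ᶜ) = {ω | ∀ v ∈ V, ω ∉ ArmBox v s (3 * s)} := by
    ext ω
    rw [Set.mem_iInter₂]
    rfl
  rwa [h2] at h1

end Pool.Agent.H57.EX
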